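import Pool.Agent.Y444.UN.Defs2
import Pool.Agent.Y584.UN.Rob

/-!
# Robust points of closed sets, for blocks (UN2-ROB)

Adapted from `Pool/Agent/Y584/UN/Rob.lean` (helper584), for project UN of helper444.
-/

set_option autoImplicit false

open MeasureTheory Set Filter Topology
open scoped ENNReal

namespace Pool.Agent.Y406.UN.Rob2

open Pool.Agent.Y444.UN
open Pool.Agent.Y584.UN.Rob (approx)

open Classical in
/-- the places of the blocks `(i, f i)`, `i < N`, `i ∈ A` -/
noncomputable def SS (f : ℕ → ℕ) (A : Set ℕ) (N : ℕ) : Finset Idx :=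
  ((Finset.range N).filter (fun i => i ∈ A)).biUnion fun i =>
    (Finset.range (2 * i)).image fun j => (i, f i, j)

theorem mem_SS {f : ℕ → ℕ} {A : Set ℕ} {N : ℕ} {k : Idx} :
    k ∈ SS f A N ↔ k.1 < N ∧ k.1 ∈ A ∧ k.2.1 = f k.1 ∧ k.2.2 < 2 * k.1 := by
  classical
  unfold SS
  simp only [Finset.mem_biUnion, Finset.mem_filter, Finset.mem_range, Finset.mem_image]
  constructor
  · rintro ⟨i, ⟨h1, h2⟩, j, h3, rfl⟩
    exact ⟨h1, h2, rfl, h3⟩
  · rintro ⟨h1, h2, h3, h4⟩
    exact ⟨k.1, ⟨h1, h2⟩, k.2.2, h4, Prod.ext rfl (Prod.ext h3.symm rfl)⟩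

theorem card_SS (f : ℕ → ℕ) (A : Set ℕ) (N : ℕ) : (SS f A N).card ≤ N * (2 * N) := by
  classical
  unfold SS
  refine (Finset.card_biUnion_le_card_mul _ _ (2 * N) ?_).trans ?_
  · intro i hi
    refine Finset.card_image_le.trans ?_
    rw [Finset.card_range]
    have := Finset.mem_range.1 (Finset.mem_filter.1 hi).1
    omega
  · refine Nat.mul_le_mul_right _ ?_
    refine (Finset.card_filter_le _ _).trans ?_
    rw [Finset.card_range]

/-- **robust points** -/
theorem t : IndStm → Rob2Stm := by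
  rintro ⟨hP, -, hflip, -⟩ K hK hPK
  have hPt : P K ≠ ∞ := measure_ne_top P K
  have hδ : ∀ n : ℕ, P K * ((2 : ℝ≥0∞)⁻¹ ^ ((n + 1) * (2 * (n + 1))) * (4 : ℝ≥0∞)⁻¹ ^ (n + 1)) ≠ 0 :=
    fun n => mul_ne_zero hPK (mul_ne_zero (ENNReal.pow_pos (by simp) _).ne'
      (ENNReal.pow_pos (by simp) _).ne')
  choose F V hVm hKV hVδ hVF using fun n => approx hK (hδ n)
  refine ⟨fun n => 1 + (F n).sup (fun k => k.2.1), ?_⟩
  intro f A0 hf
  classical
  have hp : ∀ k : Idx, k.1 ∈ A0 → k.2.1 = f k.1 → k ∉ F k.1 := by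
    intro k hkA hkf hk
    have h1 : k.2.1 ≤ (F k.1).sup (fun k => k.2.1) :=
      Finset.le_sup (f := fun k : Idx => k.2.1) hk
    have h2 := hf k.1 hkA
    simp only at h2
    omega
  let S : ℕ → Finset Idx := SS f A0
  let B : ℕ → Set Om := fun n => ⋃ A ∈ (S (n + 1)).powerset, (flip A) ⁻¹' (V n \ K)
  have hBm : ∀ n, MeasurableSet (B n) := fun n => Finset.measurableSet_biUnion _ fun A _ =>
    (hflip A).measurable ((hVm n).diff hK.measurableSet)
  have hB : ∀ n, P (B n) ≤ P K * (4 : ℝ≥0∞)⁻¹ ^ (n + 1) := by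
    intro n
    refine (measure_biUnion_finset_le _ _).trans ?_
    have h1 : ∀ A ∈ (S (n + 1)).powerset, P ((flip A) ⁻¹' (V n \ K)) ≤
        P K * ((2 : ℝ≥0∞)⁻¹ ^ ((n + 1) * (2 * (n + 1))) * (4 : ℝ≥0∞)⁻¹ ^ (n + 1)) := by
      intro A _
      rw [(hflip A).measure_preimage ((hVm n).diff hK.measurableSet).nullMeasurableSet]
      exact hVδ n
    refine (Finset.sum_le_card_nsmul _ _ _ h1).trans ?_
    rw [nsmul_eq_mul, Finset.card_powerset]
    have h2 : (S (n + 1)).card ≤ (n + 1) * (2 * (n + 1)) := card_SS f A0 (n + 1)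
    have h3 : (((2 : ℕ) ^ (S (n + 1)).card : ℕ) : ℝ≥0∞) ≤ 2 ^ ((n + 1) * (2 * (n + 1))) := by
      push_cast
      exact pow_le_pow_right₀ (by norm_num) h2
    refine (mul_le_mul' h3 le_rfl).trans (le_of_eq ?_)
    have h4 : (2 : ℝ≥0∞) ^ ((n + 1) * (2 * (n + 1))) * (2 : ℝ≥0∞)⁻¹ ^ ((n + 1) * (2 * (n + 1))) =
        1 := by
      rw [← mul_pow, ENNReal.mul_inv_cancel (by norm_num) (by norm_num), one_pow]
    calc (2 : ℝ≥0∞) ^ ((n + 1) * (2 * (n + 1))) *
          (P K * ((2 : ℝ≥0∞)⁻¹ ^ ((n + 1) * (2 * (n + 1))) * (4 : ℝ≥0∞)⁻¹ ^ (n + 1))) =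
          ((2 : ℝ≥0∞) ^ ((n + 1) * (2 * (n + 1))) *
            (2 : ℝ≥0∞)⁻¹ ^ ((n + 1) * (2 * (n + 1)))) * (P K * (4 : ℝ≥0∞)⁻¹ ^ (n + 1)) := by ring
      _ = P K * (4 : ℝ≥0∞)⁻¹ ^ (n + 1) := by rw [h4, one_mul]
  have hBs : P (⋃ n, B n) < P K := by
    have h1 : ∑' n, P K * (4 : ℝ≥0∞)⁻¹ ^ (n + 1) = P K * 3⁻¹ := by
      rw [ENNReal.tsum_mul_left]
      congr 1
      have h2 : ∑' n : ℕ, (4 : ℝ≥0∞)⁻¹ ^ (n + 1) = 4⁻¹ * ∑' n : ℕ, (4 : ℝ≥0∞)⁻¹ ^ n := by
        rw [← ENNReal.tsum_mul_left]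
        apply tsum_congr
        intro n
        rw [pow_succ, mul_comm]
      rw [h2, ENNReal.tsum_geometric]
      have h3 : (1 - (4 : ℝ≥0∞)⁻¹)⁻¹ = 4 * 3⁻¹ := by
        have h4 : (1 : ℝ≥0∞) - 4⁻¹ = 3 * 4⁻¹ := by
          apply ENNReal.sub_eq_of_eq_add (by simp)
          have h5 : (3 : ℝ≥0∞) * 4⁻¹ + 4⁻¹ = (3 + 1) * 4⁻¹ := by rw [add_mul, one_mul]
          rw [h5]
          have h6 : (3 : ℝ≥0∞) + 1 = 4 := by norm_num
          rw [h6, ENNReal.mul_inv_cancel (by norm_num) (by norm_num)]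
        rw [h4, ENNReal.mul_inv (by left; norm_num) (by left; norm_num), inv_inv, mul_comm]
      rw [h3, ← mul_assoc, ENNReal.inv_mul_cancel (by norm_num) (by norm_num), one_mul]
    have h2 : P (⋃ n, B n) ≤ P K * 3⁻¹ := by
      rw [← h1]
      exact (measure_iUnion_le _).trans (ENNReal.tsum_le_tsum hB)
    refine lt_of_le_of_lt h2 ?_
    have h3 : (3 : ℝ≥0∞)⁻¹ < 1 := by
      rw [ENNReal.inv_lt_one]; norm_num
    calc P K * 3⁻¹ < P K * 1 := (ENNReal.mul_lt_mul_iff_right hPK hPt).2 h3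
      _ = P K := mul_one _
  refine ⟨K \ ⋃ n, B n, hK.measurableSet.diff (MeasurableSet.iUnion hBm), ?_, ?_⟩
  · intro h0
    have h1 : P K ≤ P (K \ ⋃ n, B n) + P (⋃ n, B n) := by
      refine (measure_mono ?_).trans (measure_union_le _ _)
      intro x hx
      by_cases h : x ∈ ⋃ n, B n
      · exact Or.inr h
      · exact Or.inl ⟨hx, h⟩
    rw [h0, zero_add] at h1
    exact absurd hBs (not_lt.2 h1)
  · rintro e ⟨heK, heB⟩ s
    let x : Om := wr f A0 e s
    let y : ℕ → Om := fun N k => if k ∈ S N then x k else e k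
    have hy : ∀ N, ∃ A ⊆ S N, y N = flip A e := by
      intro N
      refine ⟨(S N).filter (fun k => x k ≠ e k), Finset.filter_subset _ _, ?_⟩
      funext k
      simp only [y, Pool.Agent.Y444.UN.flip, Finset.mem_filter]
      by_cases h1 : k ∈ S N
      · by_cases h2 : x k = e k
        · rw [if_pos h1, if_neg (by tauto), h2]
        · rw [if_pos h1, if_pos ⟨h1, h2⟩]
          revert h2
          cases x k <;> cases e k <;> simp
      · rw [if_neg h1, if_neg (by tauto)]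
    have hyK : ∀ N, y N ∈ K := by
      intro N
      induction N with
      | zero =>
        have h1 : y 0 = e := by
          funext k
          have h2 : k ∉ S 0 := fun h => absurd (mem_SS.1 h).1 (Nat.not_lt_zero _)
          simp only [y, if_neg h2]
        rw [h1]; exact heK
      | succ N ih =>
        have h1 : y (N + 1) ∈ V N := by
          apply hVF N (y N) (y (N + 1)) _ (hKV N ih)
          intro k hk
          have h2 : k ∈ S (N + 1) ↔ k ∈ S N := by
            simp only [S, mem_SS]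
            constructor
            · rintro ⟨h3, h4, h5, h6⟩
              refine ⟨lt_of_le_of_ne (by omega) ?_, h4, h5, h6⟩
              intro h7
              apply hp k h4 h5
              rw [h7]
              exact hk
            · rintro ⟨h3, h4⟩
              exact ⟨by omega, h4⟩
          simp only [y, h2]
        by_contra h3
        obtain ⟨A, hA, hA'⟩ := hy (N + 1)
        apply heB
        rw [mem_iUnion]
        refine ⟨N, ?_⟩
        simp only [B, mem_iUnion]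
        refine ⟨A, Finset.mem_powerset.2 hA, ?_⟩
        rw [mem_preimage, ← hA']
        exact ⟨h1, h3⟩
    have hlim : Tendsto y atTop (𝓝 x) := by
      rw [tendsto_pi_nhds]
      intro k
      apply tendsto_atTop_of_eventually_const (i₀ := k.1 + 1)
      intro N hN
      simp only [y]
      by_cases h1 : k ∈ S N
      · rw [if_pos h1]
      · rw [if_neg h1]
        have h2 : ¬ (k.1 ∈ A0 ∧ k.2.1 = f k.1 ∧ k.2.2 < 2 * k.1) := by
          intro h2
          apply h1
          simp only [S, mem_SS]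
          exact ⟨by omega, h2⟩
        have h3 : x k = e k := if_neg h2
        exact h3.symm
    exact hK.mem_of_tendsto hlim (Eventually.of_forall hyK)

end Pool.Agent.Y406.UN.Rob2
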